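import Pool.Agent.Helper26.Gap.Ideal

/-!
The first alternative of the dichotomy and the case of the continuum hypothesis: subgaps that are
levelwise-inseparable, for gaps indexed by an abstract copy of `ω₁`.
-/

set_option autoImplicit false

namespace Pool.Agent.Helper26.Gap

open Set Cardinal

variable {W : Type} [LinearOrder W] {L R : W → Set ℕ}

/-- Both sequences of a gap keep growing. -/
lemma grow (h : Om1 W) (g : WGap L R) (γ : W) :
    ∃ b, γ < b ∧ (L b \ L γ).Infinite ∧ (R b \ R γ).Infinite := by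
  have h1 : ∃ b, (L b \ L γ).Infinite := by
    by_contra hcon
    push Not at hcon
    exact g.insep (L γ) fun a => ⟨hcon a, g.disj γ a⟩
  have h2 : ∃ b, (R b \ R γ).Infinite := by
    by_contra hcon
    push Not at hcon
    apply g.insep (R γ)ᶜ
    intro a
    refine ⟨(g.disj a γ).subset ?_, (hcon a).subset ?_⟩
    · rintro k ⟨hk1, hk2⟩
      exact ⟨hk1, not_not.1 hk2⟩
    · rintro k ⟨hk1, hk2⟩
      exact ⟨hk2, hk1⟩
  obtain ⟨b1, hb1⟩ := h1
  obtain ⟨b2, hb2⟩ := h2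
  obtain ⟨b, hb⟩ := h.bdd (C := {γ, b1, b2}) (Set.to_countable _)
  have hb1' : b1 ≤ b := (hb b1 (by simp)).le
  have hb2' : b2 ≤ b := (hb b2 (by simp)).le
  refine ⟨b, hb γ (by simp), ?_, ?_⟩
  · intro hfin
    apply hb1
    refine (hfin.union (g.monoL b1 b hb1')).subset ?_
    rintro k ⟨hk1, hk2⟩
    by_cases hk : k ∈ L b
    · exact Or.inl ⟨hk, hk2⟩
    · exact Or.inr ⟨hk1, hk⟩
  · intro hfin
    apply hb2
    refine (hfin.union (g.monoR b2 b hb2')).subset ?_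
    rintro k ⟨hk1, hk2⟩
    by_cases hk : k ∈ R b
    · exact Or.inl ⟨hk, hk2⟩
    · exact Or.inr ⟨hk1, hk⟩

/-- `φ` picks a strictly increasing levelwise-inseparable subgap, where the level after `η` may be
any later index `s η`. -/
def Fine (L R : W → Set ℕ) (φ : W → W) : Prop :=
  (∀ η ξ, η < ξ → φ η < φ ξ ∧ (L (φ ξ) \ L (φ η)).Infinite ∧ (R (φ ξ) \ R (φ η)).Infinite) ∧
  ∀ s : W → W, (∀ η, η < s η) → ∀ C : Set ℕ,
    ¬ ∀ η, ((L (φ (s η)) \ L (φ η)) \ C).Finite ∧ (C ∩ (R (φ (s η)) \ R (φ η))).Finite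

/-- a function `φ` as in `Fine` from a fast function `F` -/
lemma fine_strict (g : WGap L R) {F : W → W → W} {φ : W → W}
    (hF : ∀ ξ γ, γ < F ξ γ ∧ (L (F ξ γ) \ L γ).Infinite ∧ (R (F ξ γ) \ R γ).Infinite)
    (hφ : ∀ η ξ, η < ξ → F η (φ η) < φ ξ) :
    ∀ η ξ, η < ξ → φ η < φ ξ ∧ (L (φ ξ) \ L (φ η)).Infinite ∧ (R (φ ξ) \ R (φ η)).Infinite := by
  intro η ξ hlt
  obtain ⟨h1, h2, h3⟩ := hF η (φ η)
  have h4 := hφ η ξ hlt
  refine ⟨h1.trans h4, ?_, ?_⟩
  · intro hfin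
    apply h2
    refine (hfin.union (g.monoL _ _ h4.le)).subset ?_
    rintro k ⟨hk1, hk2⟩
    by_cases hk : k ∈ L (φ ξ)
    · exact Or.inl ⟨hk, hk2⟩
    · exact Or.inr ⟨hk1, hk⟩
  · intro hfin
    apply h3
    refine (hfin.union (g.monoR _ _ h4.le)).subset ?_
    rintro k ⟨hk1, hk2⟩
    by_cases hk : k ∈ R (φ ξ)
    · exact Or.inl ⟨hk, hk2⟩
    · exact Or.inr ⟨hk1, hk⟩

theorem alt1 [WellFoundedLT W] (h : Om1 W) (g : WGap L R) (Z : Set (SS W))
    (hZ : ¬ Z.Countable) (hZI : ∀ A ⊆ Z, A.Countable → A ∈ II L R) : ∃ φ, Fine L R φ := by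
  classical
  -- columns of `Z` are finite
  have hcol : ∀ a, {x ∈ Z | x.1.1 = a}.Finite := by
    intro a
    by_contra hinf
    have hinf' : {x ∈ Z | x.1.1 = a}.Infinite := hinf
    obtain ⟨A, hA1, hA2, hA3⟩ : ∃ A ⊆ {x ∈ Z | x.1.1 = a}, A.Countable ∧ A.Infinite := by
      refine ⟨Set.range fun i => (hinf'.natEmbedding _ i : SS W), ?_, Set.countable_range _, ?_⟩
      · rintro _ ⟨i, rfl⟩
        exact (hinf'.natEmbedding _ i).2
      · refine Set.infinite_range_of_injective fun i j hij => ?_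
        exact (hinf'.natEmbedding _).injective (Subtype.ext hij)
    have hAI := hZI A (fun x hx => (hA1 hx).1) hA2
    exact hA3 ((hAI.2.1 a).subset fun x hx => ⟨hx, (hA1 hx).2⟩)
  -- late elements of `Z`
  have hlate : ∀ γ, ∃ x ∈ Z, γ ≤ x.1.1 := by
    intro γ
    by_contra hcon
    push Not at hcon
    apply hZ
    refine ((h.iio γ).biUnion fun a _ => (hcol a).countable).mono ?_
    intro x hx
    exact Set.mem_biUnion (x := x.1.1) (hcon x hx) ⟨hx, rfl⟩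
  choose x hxZ hxγ using hlate
  -- the fast function
  have hZγ : ∀ γ, {y ∈ Z | y.1.2 ≤ γ} ∈ II L R := by
    intro γ
    refine hZI _ (fun y hy => hy.1) ?_
    refine Set.countable_of_injective_of_countable_image (f := fun y : SS W => y.1)
      Subtype.val_injective.injOn ?_
    refine (((h.iic γ).prod (h.iic γ))).mono ?_
    rintro _ ⟨y, ⟨-, hy⟩, rfl⟩
    exact ⟨(y.2.le.trans hy : y.1.1 ≤ γ), hy⟩
  choose f hf1 hf2 using fun γ => (hZγ γ).2.2 γ
  choose w hw1 hw2 hw3 using fun γ => grow h g γ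
  have hFex : ∀ γ, ∃ b, f γ ≤ b ∧ (x γ).1.2 ≤ b ∧ w γ ≤ b := by
    intro γ
    exact ⟨max (f γ) (max (x γ).1.2 (w γ)), le_max_left _ _,
      (le_max_left _ _).trans (le_max_right _ _), (le_max_right _ _).trans (le_max_right _ _)⟩
  choose F hF1 hF2 hF3 using hFex
  obtain ⟨φ, hφ⟩ := h.fast fun _ γ => F γ
  have hFprop : ∀ (ξ γ : W), γ < F γ ∧ (L (F γ) \ L γ).Infinite ∧ (R (F γ) \ R γ).Infinite := by
    intro _ γ
    refine ⟨(hf1 γ).trans_le (hF1 γ), ?_, ?_⟩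
    · intro hfin
      apply hw2 γ
      refine (hfin.union (g.monoL _ _ (hF3 γ))).subset ?_
      rintro k ⟨hk1, hk2⟩
      by_cases hk : k ∈ L (F γ)
      · exact Or.inl ⟨hk, hk2⟩
      · exact Or.inr ⟨hk1, hk⟩
    · intro hfin
      apply hw3 γ
      refine (hfin.union (g.monoR _ _ (hF3 γ))).subset ?_
      rintro k ⟨hk1, hk2⟩
      by_cases hk : k ∈ R (F γ)
      · exact Or.inl ⟨hk, hk2⟩
      · exact Or.inr ⟨hk1, hk⟩
  have hstrict := fine_strict g hFprop hφ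
  refine ⟨φ, hstrict, ?_⟩
  intro s hs C hC
  have hsF : ∀ η, F (φ η) < φ (s η) := fun η => hφ η (s η) (hs η)
  -- uniformization
  have hn : ∀ η, ∃ n, ∀ k, n ≤ k →
      (k ∈ L (x (φ η)).1.2 → k ∉ L (x (φ η)).1.1 → k ∈ C) ∧
      (k ∈ C → k ∈ R (φ (s η)) → k ∈ R (φ η)) := by
    intro η
    have h1 : (L (x (φ η)).1.2 \ L (φ (s η))).Finite :=
      g.monoL _ _ ((hF2 (φ η)).trans (hsF η).le)
    have h2 : (L (φ η) \ L (x (φ η)).1.1).Finite := g.monoL _ _ (hxγ (φ η))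
    obtain ⟨n, hn⟩ := (((h1.union h2).union (hC η).1).union (hC η).2).bddAbove
    refine ⟨n + 1, fun k hk => ⟨fun hk1 hk2 => ?_, fun hk1 hk2 => ?_⟩⟩
    · by_contra hkC
      have h3 : k ∉ (((L (x (φ η)).1.2 \ L (φ (s η))) ∪ (L (φ η) \ L (x (φ η)).1.1)) ∪
          ((L (φ (s η)) \ L (φ η)) \ C)) ∪ (C ∩ (R (φ (s η)) \ R (φ η))) := by
        intro hmem
        have := hn hmem
        omega
      by_cases h4 : k ∈ L (φ (s η))
      · by_cases h5 : k ∈ L (φ η)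
        · exact h3 (Or.inl (Or.inl (Or.inr ⟨h5, hk2⟩)))
        · exact h3 (Or.inl (Or.inr ⟨⟨h4, h5⟩, hkC⟩))
      · exact h3 (Or.inl (Or.inl (Or.inl ⟨hk1, h4⟩)))
    · by_contra hkR
      have := hn (Or.inr ⟨hk1, hk2, hkR⟩)
      omega
  choose ν hν using hn
  obtain ⟨n, hn⟩ := unc_fiber h.unc ν
  have hinf : {z ∈ (Set.univ : Set W) | ν z = n}.Infinite := fun hf => hn hf.countable
  let e : ℕ → W := fun i => (hinf.natEmbedding _ i : W)
  have he_inj : Function.Injective e := fun i j hij =>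
    (hinf.natEmbedding _).injective (Subtype.ext hij)
  have he : ∀ i, ν (e i) = n := fun i => (hinf.natEmbedding _ i).2.2
  obtain ⟨b, hb⟩ := h.bdd (Set.countable_range e)
  obtain ⟨η, hη, hbη⟩ := h.exists_gt hn b
  have heη : ∀ i, e i < η := fun i => (hb _ ⟨i, rfl⟩).trans hbη
  -- the elements `x (φ (e i))` are distinct elements of `Z` below `φ η`
  have hxmono : ∀ ξ ξ', ξ < ξ' → (x (φ ξ)).1.1 < (x (φ ξ')).1.1 := by
    intro ξ ξ' hlt
    calc (x (φ ξ)).1.1 < (x (φ ξ)).1.2 := (x (φ ξ)).2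
      _ ≤ F (φ ξ) := hF2 _
      _ ≤ φ ξ' := (hφ ξ ξ' hlt).le
      _ ≤ (x (φ ξ')).1.1 := hxγ _
  have hxinj : Function.Injective fun i => x (φ (e i)) := by
    intro i j hij
    apply he_inj
    rcases lt_trichotomy (e i) (e j) with hlt | heq | hlt
    · have h5 := hxmono _ _ hlt
      simp only at hij
      rw [hij] at h5
      exact absurd h5 (lt_irrefl _)
    · exact heq
    · have h5 := hxmono _ _ hlt
      simp only at hij
      rw [hij] at h5
      exact absurd h5 (lt_irrefl _)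
  have hfin := finite_step g (φ η) (show f (φ η) ≤ φ (s η) from (hF1 (φ η)).trans (hsF η).le)
    (fun y : SS W => y.1) {y ∈ Z | y.1.2 ≤ φ η} (hf2 (φ η)) n
  have hex : ∃ i, x (φ (e i)) ∉ {y ∈ {y ∈ Z | y.1.2 ≤ φ η} | y.1 ∈ HH L R (φ η) (φ (s η)) n} := by
    by_contra hcon
    push Not at hcon
    apply Set.infinite_range_of_injective hxinj
    refine hfin.subset ?_
    rintro _ ⟨i, rfl⟩
    exact hcon i
  obtain ⟨i, hi⟩ := hex
  have h6 : (x (φ (e i))).1 ∉ HH L R (φ η) (φ (s η)) n := by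
    intro hcon
    refine hi ⟨⟨hxZ _, ?_⟩, hcon⟩
    exact (hF2 _).trans (hφ _ _ (heη i)).le
  apply h6
  intro k hk1 hk2 hk3 hk4
  by_contra hkn
  have hkn' : n ≤ k := not_lt.1 hkn
  have hηn : ν η = n := hη.2
  have h7 := (hν (e i) k (by rw [he i]; exact hkn')).1 hk1 hk2
  exact hk4 ((hν η k (by rw [hηn]; exact hkn')).2 h7 hk3)

/-- Under the continuum hypothesis. -/
theorem caseCH [WellFoundedLT W] (h : Om1 W) (g : WGap L R) (e : W → Set ℕ)
    (he : Function.Surjective e) : ∃ φ, Fine L R φ := by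
  classical
  have hfail : ∀ (ξ γ : W), ∃ b, ∀ c, b ≤ c →
      ¬ (((L c \ L γ) \ e ξ).Finite ∧ (e ξ ∩ (R c \ R γ)).Finite) := by
    intro ξ γ
    by_contra hcon
    push Not at hcon
    apply g.insep ((e ξ ∪ L γ) \ R γ)
    intro a
    obtain ⟨c, hac, h1, h2⟩ := hcon a
    constructor
    · refine (((g.monoL a c hac).union h1).union (g.disj a γ)).subset ?_
      rintro k ⟨hk1, hk2⟩
      by_cases hkγ : k ∈ R γ
      · exact Or.inr ⟨hk1, hkγ⟩
      · left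
        by_cases hkc : k ∈ L c
        · right
          refine ⟨⟨hkc, fun hkL => hk2 ⟨Or.inr hkL, hkγ⟩⟩, fun hke => hk2 ⟨Or.inl hke, hkγ⟩⟩
        · left; exact ⟨hk1, hkc⟩
    · refine (((g.monoR a c hac).union h2).union (g.disj γ a)).subset ?_
      rintro k ⟨⟨hk1 | hk1, hk2⟩, hk3⟩
      · left
        by_cases hkc : k ∈ R c
        · right; exact ⟨hk1, hkc, hk2⟩
        · left; exact ⟨hk3, hkc⟩
      · right; exact ⟨hk1, hk3⟩
  choose f hf using hfail
  choose w hw1 hw2 hw3 using fun γ => grow h g γ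
  let F : W → W → W := fun ξ γ => max (f ξ γ) (w γ)
  obtain ⟨φ, hφ⟩ := h.fast F
  have hFprop : ∀ (ξ γ : W), γ < F ξ γ ∧ (L (F ξ γ) \ L γ).Infinite ∧
      (R (F ξ γ) \ R γ).Infinite := by
    intro ξ γ
    refine ⟨(hw1 γ).trans_le (le_max_right _ _), ?_, ?_⟩
    · intro hfin
      apply hw2 γ
      refine (hfin.union (g.monoL _ _ (le_max_right (f ξ γ) (w γ)))).subset ?_
      rintro k ⟨hk1, hk2⟩
      by_cases hk : k ∈ L (F ξ γ)
      · exact Or.inl ⟨hk, hk2⟩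
      · exact Or.inr ⟨hk1, hk⟩
    · intro hfin
      apply hw3 γ
      refine (hfin.union (g.monoR _ _ (le_max_right (f ξ γ) (w γ)))).subset ?_
      rintro k ⟨hk1, hk2⟩
      by_cases hk : k ∈ R (F ξ γ)
      · exact Or.inl ⟨hk, hk2⟩
      · exact Or.inr ⟨hk1, hk⟩
  refine ⟨φ, fine_strict g hFprop hφ, ?_⟩
  intro s hs C hC
  obtain ⟨ξ, rfl⟩ := he C
  exact hf ξ (φ ξ) (φ (s ξ)) ((le_max_left _ _).trans (hφ ξ (s ξ) (hs ξ)).le) (hC ξ)

end Pool.Agent.Helper26.Gap
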