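import Mathlib

/-!
Basic facts on well-orders of type `ω₁` and on gaps indexed by them.
-/

set_option autoImplicit false

namespace Pool.Agent.Helper26.Gap

open Set Cardinal

/-- `W` behaves like `ω₁`: uncountable with countable initial segments. -/
structure Om1 (W : Type) [LinearOrder W] : Prop where
  iio : ∀ a : W, (Set.Iio a).Countable
  unc : ¬ (Set.univ : Set W).Countable

lemma unc_fiber {α : Type*} {Z : Set α} (hZ : ¬ Z.Countable) (f : α → ℕ) :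
    ∃ n, ¬ {z ∈ Z | f z = n}.Countable := by
  by_contra hcon
  push Not at hcon
  apply hZ
  have : Z ⊆ ⋃ n, {z ∈ Z | f z = n} := fun z hz => Set.mem_iUnion.2 ⟨f z, hz, rfl⟩
  exact (Set.countable_iUnion hcon).mono this

section

variable {W : Type} [LinearOrder W]

lemma Om1.bdd (h : Om1 W) {C : Set W} (hC : C.Countable) : ∃ b, ∀ c ∈ C, c < b := by
  by_contra hcon
  push Not at hcon
  apply h.unc
  have : (Set.univ : Set W) ⊆ ⋃ c ∈ C, Set.Iic c := by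
    intro b _
    obtain ⟨c, hc, hbc⟩ := hcon b
    exact Set.mem_biUnion hc hbc
  refine (hC.biUnion fun c _ => ?_).mono this
  rw [← Set.Iio_insert]
  exact (h.iio c).insert c

lemma Om1.iic (h : Om1 W) (a : W) : (Set.Iic a).Countable := by
  rw [← Set.Iio_insert]
  exact (h.iio a).insert a

lemma Om1.exists_gt (h : Om1 W) {Z : Set W} (hZ : ¬ Z.Countable) (a : W) : ∃ b ∈ Z, a < b := by
  by_contra hcon
  push Not at hcon
  exact hZ ((h.iic a).mono fun b hb => hcon b hb)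

lemma Om1.fast [WellFoundedLT W] (h : Om1 W) (F : W → W → W) :
    ∃ φ : W → W, ∀ η ξ, η < ξ → F η (φ η) < φ ξ := by
  classical
  have hex : ∀ (ξ : W) (g : (η : W) → η < ξ → W), ∃ b, ∀ η (hη : η < ξ), F η (g η hη) < b := by
    intro ξ g
    have h1 : (Set.range fun η : Set.Iio ξ => F η (g η η.2)).Countable := by
      have := (h.iio ξ).to_subtype
      exact Set.countable_range _
    obtain ⟨b, hb⟩ := h.bdd h1
    exact ⟨b, fun η hη => hb _ ⟨⟨η, hη⟩, rfl⟩⟩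
  choose G hG using hex
  let φ : W → W := WellFoundedLT.fix (fun ξ g => G ξ g)
  have hφ : ∀ ξ, φ ξ = G ξ (fun η _ => φ η) := fun ξ => WellFoundedLT.fix_eq _ ξ
  exact ⟨φ, fun η ξ hlt => by rw [hφ ξ]; exact hG ξ (fun η _ => φ η) η hlt⟩

/-- A (weakly increasing) gap indexed by `W`. -/
structure WGap (L R : W → Set ℕ) : Prop where
  monoL : ∀ a b, a ≤ b → (L a \ L b).Finite
  monoR : ∀ a b, a ≤ b → (R a \ R b).Finite
  disj : ∀ a b, (L a ∩ R b).Finite
  insep : ∀ C : Set ℕ, ¬ ∀ a, (L a \ C).Finite ∧ (C ∩ R a).Finite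

variable {L R : W → Set ℕ}

/-- the union of uncountably many left sets meets late right sets in infinite sets -/
lemma claimA (h : Om1 W) (g : WGap L R) {Z : Set W} (hZ : ¬ Z.Countable) (γ : W) :
    ∃ γ', γ < γ' ∧ ((⋃ b ∈ Z, L b) ∩ (R γ' \ R γ)).Infinite := by
  by_contra hcon
  push Not at hcon
  apply g.insep ((⋃ b ∈ Z, L b) \ R γ)
  intro a
  constructor
  · obtain ⟨b, hb, hab⟩ := h.exists_gt hZ a
    refine ((g.monoL a b hab.le).union (g.disj b γ)).subset ?_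
    rintro k ⟨hk1, hk2⟩
    by_cases hkb : k ∈ L b
    · right
      refine ⟨hkb, ?_⟩
      by_contra hkR
      exact hk2 ⟨Set.mem_biUnion hb hkb, hkR⟩
    · left; exact ⟨hk1, hkb⟩
  · rcases le_or_gt a γ with hle | hlt
    · refine (g.monoR a γ hle).subset ?_
      rintro k ⟨⟨_, hk2⟩, hk3⟩
      exact ⟨hk3, hk2⟩
    · refine (hcon a hlt).subset ?_
      rintro k ⟨⟨hk1, hk2⟩, hk3⟩
      exact ⟨hk1, hk3, hk2⟩

lemma inf_mono (g : WGap L R) {U : Set ℕ} {γ γ' γ'' : W} (hle : γ' ≤ γ'')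
    (hU : (U ∩ (R γ' \ R γ)).Infinite) : (U ∩ (R γ'' \ R γ)).Infinite := by
  intro hfin
  apply hU
  refine (hfin.union (g.monoR γ' γ'' hle)).subset ?_
  rintro k ⟨hk1, hk2, hk3⟩
  by_cases hk : k ∈ R γ''
  · left; exact ⟨hk1, hk, hk3⟩
  · right; exact ⟨hk2, hk⟩

/-- the pairs `(α, β)` for which `(L β \ L α) ∩ (R γ' \ R γ)` lies below `m` -/
def HH (L R : W → Set ℕ) (γ γ' : W) (m : ℕ) : Set (W × W) :=
  {x | ∀ k, k ∈ L x.2 → k ∉ L x.1 → k ∈ R γ' → k ∉ R γ → k < m}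

omit [LinearOrder W] in
lemma HH_mono {γ γ' : W} {m n : ℕ} (h : m ≤ n) : HH L R γ γ' m ⊆ HH L R γ γ' n :=
  fun _ hx k h1 h2 h3 h4 => (hx k h1 h2 h3 h4).trans_le h

lemma HH_step (g : WGap L R) {γ' γ'' : W} (γ : W) (hle : γ' ≤ γ'') (m : ℕ) :
    ∃ n, HH L R γ γ'' m ⊆ HH L R γ γ' n := by
  obtain ⟨N, hN⟩ := (g.monoR γ' γ'' hle).bddAbove
  refine ⟨max m (N + 1), ?_⟩
  intro x hx k h1 h2 h3 h4
  by_cases hk : k ∈ R γ''
  · exact (hx k h1 h2 hk h4).trans_le (le_max_left _ _)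
  · exact (Nat.lt_succ_of_le (hN ⟨h3, hk⟩)).trans_le (le_max_right _ _)

lemma finite_step (g : WGap L R) {γ' γ'' : W} (γ : W) (hle : γ' ≤ γ'') {S : Type*}
    (π : S → W × W) (X : Set S) (hX : ∀ m, {x ∈ X | π x ∈ HH L R γ γ' m}.Finite) (m : ℕ) :
    {x ∈ X | π x ∈ HH L R γ γ'' m}.Finite := by
  obtain ⟨n, hn⟩ := HH_step g γ hle m
  exact (hX n).subset fun x hx => ⟨hx.1, hn hx.2⟩

end

end Pool.Agent.Helper26.Gap
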