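import Pool.Agent.Helper26.Gap.Defs

/-!
Martin's axiom with `ℵ₁ < 𝔠` gives pseudo-intersections for families of size `ℵ₁` and
dominating functions for families of size `ℵ₁`.
-/

set_option autoImplicit false

namespace Pool.Agent.Helper26.Gap

open Set Cardinal

/-- `𝔭 > ω₁`: every family of at most `ℵ₁` subsets of a countable set all of whose finite
intersections are infinite has an infinite pseudo-intersection. -/
def PP : Prop :=
  ∀ (Y ι : Type), Countable Y → #ι ≤ ℵ₁ → ∀ A : ι → Set Y,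
    (∀ F : Finset ι, (⋂ i ∈ F, A i).Infinite) → ∃ X : Set Y, X.Infinite ∧ ∀ i, (X \ A i).Finite

/-- conditions: a finite part of the pseudo-intersection and finitely many promises -/
@[ext]
structure Pos {Y ι : Type} (A : ι → Set Y) where
  s : Finset Y
  F : Finset ι

instance {Y ι : Type} (A : ι → Set Y) : PartialOrder (Pos A) where
  le p q := q.s ⊆ p.s ∧ q.F ⊆ p.F ∧ ∀ k ∈ p.s, k ∉ q.s → ∀ i ∈ q.F, k ∈ A i
  le_refl p := ⟨Finset.Subset.refl _, Finset.Subset.refl _, fun k h1 h2 => absurd h1 h2⟩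
  le_trans p q r hpq hqr := ⟨hqr.1.trans hpq.1, hqr.2.1.trans hpq.2.1, fun k hk hkr i hi => by
    by_cases hkq : k ∈ q.s
    · exact hqr.2.2 k hkq hkr i hi
    · exact hpq.2.2 k hk hkq i (hqr.2.1 hi)⟩
  le_antisymm p q hpq hqp := Pos.ext (Finset.Subset.antisymm hqp.1 hpq.1)
    (Finset.Subset.antisymm hqp.2.1 hpq.2.1)

lemma Pos.le_def {Y ι : Type} {A : ι → Set Y} {p q : Pos A} :
    p ≤ q ↔ q.s ⊆ p.s ∧ q.F ⊆ p.F ∧ ∀ k ∈ p.s, k ∉ q.s → ∀ i ∈ q.F, k ∈ A i := Iff.rfl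

theorem pseudo (hMA : MA) (hc : (ℵ₁ : Cardinal.{0}) < 𝔠) : PP := by
  classical
  intro Y ι hY hι A hA
  have hne : Nonempty (Pos A) := ⟨⟨∅, ∅⟩⟩
  let D1 : ℕ → Set (Pos A) := fun n => {p | n ≤ p.s.card}
  let D2 : ι → Set (Pos A) := fun i => {p | i ∈ p.F}
  have hccc : ∀ B : Set (Pos A), (∀ p ∈ B, ∀ q ∈ B, p ≠ q → ¬ ∃ r, r ≤ p ∧ r ≤ q) →
      B.Countable := by
    intro B hB
    have hinj : Set.InjOn (fun p : Pos A => p.s) B := by
      intro p hp q hq hpq
      by_contra hne'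
      apply hB p hp q hq hne'
      have hpq' : p.s = q.s := hpq
      refine ⟨⟨p.s, p.F ∪ q.F⟩, ?_, ?_⟩
      · exact ⟨Finset.Subset.refl _, Finset.subset_union_left, fun k h1 h2 => absurd h1 h2⟩
      · refine ⟨?_, Finset.subset_union_right, fun k h1 h2 => ?_⟩
        · show q.s ⊆ p.s
          rw [hpq']
        · have h1' : k ∈ p.s := h1
          rw [hpq'] at h1'
          exact absurd h1' h2
    exact Set.countable_of_injective_of_countable_image hinj (Set.to_countable _)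
  have hcard : #(Set.range D1 ∪ Set.range D2 : Set (Set (Pos A))) < 𝔠 := by
    refine lt_of_le_of_lt (Cardinal.mk_union_le _ _) ?_
    have h1 : #(Set.range D1) ≤ ℵ₁ := by
      refine (Cardinal.mk_range_le (f := D1)).trans ?_
      simp
    have h2 : #(Set.range D2) ≤ ℵ₁ := (Cardinal.mk_range_le (f := D2)).trans hι
    calc #(Set.range D1) + #(Set.range D2) ≤ ℵ₁ + ℵ₁ := add_le_add h1 h2
      _ = ℵ₁ := Cardinal.add_eq_self (Cardinal.aleph0_le_aleph 1)
      _ < 𝔠 := hc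
  have hdense : ∀ d ∈ (Set.range D1 ∪ Set.range D2 : Set (Set (Pos A))), ∀ p, ∃ q ∈ d, q ≤ p := by
    rintro d (⟨n, rfl⟩ | ⟨i, rfl⟩) p
    · have h1 : ((⋂ i ∈ p.F, A i) \ (p.s : Set Y)).Infinite := (hA p.F).sdiff p.s.finite_toSet
      obtain ⟨t, ht1, ht2⟩ := h1.exists_subset_card_eq n
      refine ⟨⟨p.s ∪ t, p.F⟩, ?_, ?_⟩
      · show n ≤ (p.s ∪ t).card
        rw [← ht2]
        exact Finset.card_le_card Finset.subset_union_right
      · refine ⟨Finset.subset_union_left, Finset.Subset.refl _, fun k h1 h2 i hi => ?_⟩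
        have h3 : k ∈ p.s ∪ t := h1
        have h4 : k ∈ t := by
          rcases Finset.mem_union.1 h3 with h | h
          · exact absurd h h2
          · exact h
        have h5 := (ht1 h4).1
        simp only [Set.mem_iInter] at h5
        exact h5 i hi
    · refine ⟨⟨p.s, insert i p.F⟩, Finset.mem_insert_self _ _, ?_⟩
      exact ⟨Finset.Subset.refl _, Finset.subset_insert _ _, fun k h1 h2 => absurd h1 h2⟩
  obtain ⟨G, -, hup, hdir, hmeet⟩ := hMA (Pos A) hccc _ hcard hdense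
  refine ⟨{k | ∃ p ∈ G, k ∈ p.s}, ?_, ?_⟩
  · intro hfin
    obtain ⟨p, hp, hp2⟩ := hmeet (D1 (hfin.toFinset.card + 1)) (Or.inl ⟨_, rfl⟩)
    have h1 : p.s ⊆ hfin.toFinset := by
      intro k hk
      rw [Set.Finite.mem_toFinset]
      exact ⟨p, hp, hk⟩
    have h2 := Finset.card_le_card h1
    have h3 : hfin.toFinset.card + 1 ≤ p.s.card := hp2
    omega
  · intro i
    obtain ⟨p, hp, hp2⟩ := hmeet (D2 i) (Or.inr ⟨i, rfl⟩)
    refine p.s.finite_toSet.subset ?_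
    rintro k ⟨⟨q, hq, hkq⟩, hkA⟩
    obtain ⟨r, hr, hrp, hrq⟩ := hdir p hp q hq
    by_contra hkp
    exact hkA (hrp.2.2 k (hrq.1 hkq) hkp i hp2)

/-- `𝔟 > ω₁` -/
theorem dominate (hPP : PP) {ι : Type} (hι : #ι ≤ ℵ₁) (f : ι → ℕ → ℕ) :
    ∃ g : ℕ → ℕ, ∀ i, ∃ N, ∀ n, N ≤ n → f i n ≤ g n := by
  classical
  -- monotone hull
  let f' : ι → ℕ → ℕ := fun i n => (Finset.range (n + 1)).sup (f i)
  have hf' : ∀ i n, f i n ≤ f' i n := fun i n =>
    Finset.le_sup (f := f i) (Finset.mem_range.2 (Nat.lt_succ_self n))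
  have hmono : ∀ i, Monotone (f' i) := by
    intro i a b hab
    exact Finset.sup_mono (Finset.range_mono (by omega))
  let A : ι ⊕ ℕ → Set (ℕ × ℕ) := fun j => Sum.elim (fun i => {x : ℕ × ℕ | f' i x.1 ≤ x.2})
    (fun m => {x : ℕ × ℕ | m ≤ x.1}) j
  have hcard : #(ι ⊕ ℕ) ≤ ℵ₁ := by
    rw [Cardinal.mk_sum]
    simp only [Cardinal.lift_id, Cardinal.mk_nat]
    calc #ι + ℵ₀ ≤ ℵ₁ + ℵ₁ := add_le_add hι (Cardinal.aleph0_le_aleph 1)
      _ = ℵ₁ := Cardinal.add_eq_self (Cardinal.aleph0_le_aleph 1)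
  have hfip : ∀ F : Finset (ι ⊕ ℕ), (⋂ j ∈ F, A j).Infinite := by
    intro F
    let M : ℕ := F.sup fun j => Sum.elim (fun _ => 0) (fun m => m) j
    let K : ℕ := F.sup fun j => Sum.elim (fun i => f' i M) (fun _ => 0) j
    have hinj : Function.Injective fun t : ℕ => ((M, K + t) : ℕ × ℕ) := by
      intro a b hab
      simpa using hab
    refine (Set.infinite_range_of_injective hinj).mono ?_
    rintro _ ⟨t, rfl⟩
    simp only [Set.mem_iInter]
    rintro (i | m) hj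
    · show f' i M ≤ K + t
      have : f' i M ≤ K := Finset.le_sup (f := fun j => Sum.elim (fun i => f' i M) (fun _ => 0) j) hj
      omega
    · show m ≤ M
      exact Finset.le_sup (f := fun j => Sum.elim (fun _ => 0) (fun m => m) j) hj
  obtain ⟨X, hXinf, hX⟩ := hPP (ℕ × ℕ) (ι ⊕ ℕ) inferInstance hcard A hfip
  have hfin : ∀ m, {x ∈ X | x.1 < m}.Finite := by
    intro m
    refine (hX (Sum.inr m)).subset ?_
    rintro x ⟨hx1, hx2⟩
    exact ⟨hx1, fun h : m ≤ x.1 => absurd h (by omega)⟩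
  have hex : ∀ n, ∃ x ∈ X, n ≤ x.1 := by
    intro n
    by_contra hcon
    push Not at hcon
    exact hXinf ((hfin n).subset fun x hx => ⟨hx, hcon x hx⟩)
  choose x hx1 hx2 using hex
  refine ⟨fun n => (x n).2, fun i => ?_⟩
  have h1 := hX (Sum.inl i)
  obtain ⟨N, hN⟩ := (h1.image Prod.fst).bddAbove
  refine ⟨N + 1, fun n hn => ?_⟩
  have h2 : x n ∈ A (Sum.inl i) := by
    by_contra hcon
    have h3 := hN ⟨x n, ⟨hx1 n, hcon⟩, rfl⟩
    have h4 := hx2 n
    omega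
  calc f i n ≤ f' i n := hf' i n
    _ ≤ f' i (x n).1 := hmono i (hx2 n)
    _ ≤ (x n).2 := h2

end Pool.Agent.Helper26.Gap
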