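import Pool.Agent.Helper26.Gap.Base
import Pool.Agent.Helper26.Gap.MA

/-!
The density argument: inside every uncountable set of indices of a gap there is an infinite set
`X` such that for every `γ` there is `γ'` for which `L b ∩ (R γ' \ R γ)` tends to infinity along
`b ∈ X`.
-/

set_option autoImplicit false

namespace Pool.Agent.Helper26.Gap

open Set Cardinal

variable {W : Type} [LinearOrder W] {L R : W → Set ℕ}

/-- the elements `b` of `Z` with `L b ∩ [0, n) = t ∩ [0, n)` -/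
def Cyl (L : W → Set ℕ) (Z : Set W) (q : ℕ × Finset ℕ) : Set W :=
  {b ∈ Z | ∀ k < q.1, k ∈ L b ↔ k ∈ q.2}

/-- `b` has a late witness in `R γ' \ R γ` -/
def NN (L R : W → Set ℕ) (γ γ' : W) (m : ℕ) : Set W :=
  {b | ∃ k, m ≤ k ∧ k ∈ L b ∧ k ∈ R γ' ∧ k ∉ R γ}

theorem claimB (hPP : PP) (h : Om1 W) (hW : #W ≤ ℵ₁) (g : WGap L R) {Z : Set W}
    (hZ : ¬ Z.Countable) :
    ∃ X ⊆ Z, X.Countable ∧ X.Infinite ∧
      ∀ γ, ∃ γ', γ < γ' ∧ ∀ m, (X \ NN L R γ γ' m).Finite := by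
  classical
  have hne : Nonempty W := by
    by_contra hne
    rw [not_nonempty_iff] at hne
    exact h.unc (Set.to_countable _)
  -- the bad cylinders
  let bad : Set W := ⋃ q ∈ {q : ℕ × Finset ℕ | (Cyl L Z q).Countable}, Cyl L Z q
  have hbad : bad.Countable := by
    refine (Set.to_countable {q : ℕ × Finset ℕ | (Cyl L Z q).Countable}).biUnion ?_
    intro q hq
    exact hq
  let Z' : Set W := Z \ bad
  have hZ'Z : Z' ⊆ Z := Set.sdiff_subset
  have hunc : ∀ q, ¬ (Cyl L Z q).Countable → ¬ (Cyl L Z' q).Countable := by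
    intro q hq hc
    apply hq
    refine (hc.union hbad).mono ?_
    intro b hb
    by_cases hbb : b ∈ bad
    · exact Or.inr hbb
    · exact Or.inl ⟨⟨hb.1, hbb⟩, hb.2⟩
  -- the restriction of `L b` to `n`
  let res : W → ℕ → Finset ℕ := fun b n => (Finset.range n).filter (· ∈ L b)
  have hres : ∀ b n k, k < n → (k ∈ L b ↔ k ∈ res b n) := by
    intro b n k hk
    simp [res, hk]
  have hself : ∀ b ∈ Z', ∀ n, ¬ (Cyl L Z (n, res b n)).Countable := by
    intro b hb n hc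
    apply hb.2
    refine Set.mem_biUnion (x := (n, res b n)) hc ?_
    exact ⟨hb.1, fun k hk => hres b n k hk⟩
  -- unions
  let U : ℕ × Finset ℕ → Set ℕ := fun q => ⋃ b ∈ Cyl L Z' q, L b
  have hpick : ∀ (q : ℕ × Finset ℕ) (k : ℕ), k ∈ U q → ∃ b ∈ Cyl L Z' q, k ∈ L b := by
    intro q k hk
    simpa [U] using hk
  choose! pk hpk1 hpk2 using hpick
  let Y : Set W := ⋃ q, (pk q) '' (U q)
  have hYc : Y.Countable := by
    refine Set.countable_iUnion fun q => ?_
    exact (Set.to_countable _).image _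
  have hYZ' : Y ⊆ Z' := by
    intro b hb
    obtain ⟨q, hq⟩ := Set.mem_iUnion.1 hb
    obtain ⟨k, hk, rfl⟩ := hq
    exact (hpk1 q k hk).1
  have hYmem : ∀ q k, k ∈ U q → pk q k ∈ Y := fun q k hk => Set.mem_iUnion.2 ⟨q, k, hk, rfl⟩
  -- the fast function
  have hfast : ∀ γ, ∃ γ', γ < γ' ∧ ∀ q, ¬ (Cyl L Z q).Countable →
      (U q ∩ (R γ' \ R γ)).Infinite := by
    intro γ
    have h1 : ∀ q, ∃ γ', γ < γ' ∧ (¬ (Cyl L Z q).Countable → (U q ∩ (R γ' \ R γ)).Infinite) := by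
      intro q
      by_cases hq : (Cyl L Z q).Countable
      · obtain ⟨b, hb⟩ := h.bdd (Set.countable_singleton γ)
        exact ⟨b, hb γ rfl, fun hn => absurd hq hn⟩
      · obtain ⟨γ', h2, h3⟩ := claimA h g (hunc q hq) γ
        exact ⟨γ', h2, fun _ => h3⟩
    choose f hf1 hf2 using h1
    obtain ⟨b, hb⟩ := h.bdd (Set.countable_range f)
    refine ⟨b, ?_, ?_⟩
    · exact (hf1 (0, ∅)).trans (hb _ ⟨_, rfl⟩)
    · intro q hq
      exact inf_mono g (hb _ ⟨q, rfl⟩).le (hf2 q hq)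
  choose p hp1 hp2 using hfast
  -- density
  have hdens : ∀ F : Finset (W × ℕ), ∀ q, ¬ (Cyl L Z q).Countable →
      ∃ q', ¬ (Cyl L Z q').Countable ∧ Cyl L Z q' ⊆ Cyl L Z q ∧
        ∀ b ∈ Cyl L Z q', ∀ x ∈ F, b ∈ NN L R x.1 (p x.1) x.2 := by
    intro F
    induction F using Finset.induction_on with
    | empty => intro q hq; exact ⟨q, hq, subset_rfl, by simp⟩
    | insert x F hx ih =>
      intro q hq
      obtain ⟨q', hq', hsub, hall⟩ := ih q hq
      obtain ⟨k, hk, hkm⟩ := Set.Infinite.exists_gt (hp2 x.1 q' hq') x.2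
      have hb1 := hpk1 q' k hk.1
      have hb2 := hpk2 q' k hk.1
      set b := pk q' k with hb
      let n : ℕ := max q'.1 (k + 1)
      refine ⟨(n, res b n), hself b hb1.1 n, ?_, ?_⟩
      · intro c hc
        refine hsub ⟨hc.1, fun j hj => ?_⟩
        have hjn : j < n := lt_of_lt_of_le hj (le_max_left _ _)
        rw [hc.2 j hjn]
        show j ∈ res b n ↔ j ∈ q'.2
        rw [← hres b n j hjn]
        exact hb1.2 j hj
      · intro c hc y hy
        have hcq' : c ∈ Cyl L Z q' := by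
          refine ⟨hc.1, fun j hj => ?_⟩
          have hjn : j < n := lt_of_lt_of_le hj (le_max_left _ _)
          rw [hc.2 j hjn]
          show j ∈ res b n ↔ j ∈ q'.2
          rw [← hres b n j hjn]
          exact hb1.2 j hj
        rcases Finset.mem_insert.1 hy with rfl | hy
        · have hkn : k < n := lt_of_lt_of_le (Nat.lt_succ_self k) (le_max_right _ _)
          refine ⟨k, hkm.le, ?_, hk.2.1, hk.2.2⟩
          rw [hc.2 k hkn]
          show k ∈ res b n
          rw [← hres b n k hkn]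
          exact hb2
        · exact hall c hcq' y hy
  -- infinite intersections
  have hZtop : ¬ (Cyl L Z (0, ∅)).Countable := by
    intro hc
    apply hZ
    refine hc.mono ?_
    intro b hb
    exact ⟨hb, fun k hk => absurd hk (Nat.not_lt_zero k)⟩
  have hinf : ∀ F : Finset (W × ℕ),
      (⋂ x ∈ F, {b : Y | (b : W) ∈ NN L R x.1 (p x.1) x.2}).Infinite := by
    intro F hfin
    obtain ⟨q', hq', -, hall⟩ := hdens F _ hZtop
    obtain ⟨γ⟩ := hne
    have hU := hp2 γ q' hq'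
    apply hU
    have hfin2 : (⋃ b ∈ (⋂ x ∈ F, {b : Y | (b : W) ∈ NN L R x.1 (p x.1) x.2}),
        (L (b : W) ∩ R (p γ))).Finite := hfin.biUnion fun b _ => g.disj _ _
    refine hfin2.subset ?_
    rintro k ⟨hkU, hkR, -⟩
    have hbY := hYmem q' k hkU
    refine Set.mem_biUnion (x := (⟨pk q' k, hbY⟩ : Y)) ?_ ⟨hpk2 q' k hkU, hkR⟩
    simp only [Set.mem_iInter]
    intro x hx
    have hc : pk q' k ∈ Cyl L Z q' := ⟨(hpk1 q' k hkU).1.1, (hpk1 q' k hkU).2⟩
    exact hall _ hc x hx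
  have hcard : #(W × ℕ) ≤ ℵ₁ := by
    rw [Cardinal.mk_prod]
    simp only [Cardinal.lift_id, Cardinal.mk_nat]
    calc #W * ℵ₀ ≤ ℵ₁ * ℵ₁ := mul_le_mul' hW (Cardinal.aleph0_le_aleph 1)
      _ = ℵ₁ := Cardinal.mul_eq_self (Cardinal.aleph0_le_aleph 1)
  have hYc' : Countable Y := hYc.to_subtype
  obtain ⟨X, hXinf, hX⟩ := hPP Y (W × ℕ) hYc' hcard
    (fun x => {b : Y | (b : W) ∈ NN L R x.1 (p x.1) x.2}) hinf
  refine ⟨Subtype.val '' X, ?_, ?_, ?_, ?_⟩
  · rintro _ ⟨b, -, rfl⟩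
    exact hZ'Z (hYZ' b.2)
  · exact (Set.to_countable X).image _
  · exact hXinf.image Subtype.val_injective.injOn
  · intro γ
    refine ⟨p γ, hp1 γ, fun m => ?_⟩
    refine ((hX (γ, m)).image Subtype.val).subset ?_
    rintro _ ⟨⟨b, hb, rfl⟩, hb2⟩
    exact ⟨b, ⟨hb, hb2⟩, rfl⟩

end Pool.Agent.Helper26.Gap
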