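import Mathlib

/-!
Definitions for the problem on weakly levelwise-inseparable gaps.  Sequences of length `ω₁` are
functions on the ordinals of which only the values at the ordinals below `ω₁` matter.
-/

set_option autoImplicit false

namespace Pool.Agent.Helper26.Gap

open Ordinal Cardinal

/-- `(L α, R α)`, `α < ω₁`, is a gap: `L α ∩ R β` is finite for all `α, β < ω₁`, and no set `C`
satisfies `L α ⊆* C` and `C ∩ R α =* ∅` for all `α < ω₁`. -/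
def IsGap (L R : Ordinal.{0} → Set ℕ) : Prop :=
  (∀ α < ω₁, ∀ β < ω₁, (L α ∩ R β).Finite) ∧
    ¬ ∃ C : Set ℕ, ∀ α < ω₁, (L α \ C).Finite ∧ (C ∩ R α).Finite

/-- `(T α)`, `α < ω₁`, is `⊆*`-increasing (possibly not strictly). -/
def AlmostIncreasing (T : Ordinal.{0} → Set ℕ) : Prop :=
  ∀ α β, α < β → β < ω₁ → (T α \ T β).Finite

/-- `(T α)`, `α < ω₁`, is strictly `⊆*`-increasing. -/
def StrictAlmostIncreasing (T : Ordinal.{0} → Set ℕ) : Prop :=
  ∀ α β, α < β → β < ω₁ → (T α \ T β).Finite ∧ (T β \ T α).Infinite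

/-- `(L α, R α)`, `α < ω₁`, is a levelwise-inseparable gap: the sets
`L (α + 1) \ L α`, `R (α + 1) \ R α` form a gap. -/
def LevelwiseInseparable (L R : Ordinal.{0} → Set ℕ) : Prop :=
  IsGap (fun α => L (α + 1) \ L α) (fun α => R (α + 1) \ R α)

/-- `(L α, R α)`, `α < ω₁`, has a levelwise-inseparable subgap `(L' α, R' α)`, `α < ω₁`: the sets
`L' α` are among the `L β`, the sets `R' α` are among the `R β`, both sequences are strictly
`⊆*`-increasing, `(L', R')` is a gap, and it is levelwise-inseparable. -/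
def WLI (L R : Ordinal.{0} → Set ℕ) : Prop :=
  ∃ L' R' : Ordinal.{0} → Set ℕ,
    (∀ α < ω₁, ∃ β < ω₁, L' α = L β) ∧ (∀ α < ω₁, ∃ β < ω₁, R' α = R β) ∧
      StrictAlmostIncreasing L' ∧ StrictAlmostIncreasing R' ∧ IsGap L' R' ∧
        LevelwiseInseparable L' R'

/-- The P-ideal dichotomy. -/
def PID : Prop :=
  ∀ (S : Type) (I : Set (Set S)), ¬ (Set.univ : Set S).Countable →
    (∀ A ∈ I, A.Countable) → (∀ A : Set S, A.Finite → A ∈ I) →
    (∀ A ∈ I, ∀ B ⊆ A, B ∈ I) → (∀ A ∈ I, ∀ B ∈ I, A ∪ B ∈ I) →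
    (∀ J : Set (Set S), J ⊆ I → J.Countable → ∃ B ∈ I, ∀ A ∈ J, (A \ B).Finite) →
    (∃ Z : Set S, ¬ Z.Countable ∧ ∀ A ⊆ Z, A.Countable → A ∈ I) ∨
      ∃ T : ℕ → Set S, (⋃ n, T n) = Set.univ ∧ ∀ n, ∀ A ∈ I, (T n ∩ A).Finite

/-- Martin's axiom: for every nonempty ccc partial order `P` and every family `D` of fewer than
`2^ℵ₀` dense subsets of `P` there is a filter `G` on `P` meeting every member of `D`
(smaller elements are stronger). -/
def MA : Prop :=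
  ∀ (P : Type) [PartialOrder P] [Nonempty P],
    (∀ A : Set P, (∀ p ∈ A, ∀ q ∈ A, p ≠ q → ¬ ∃ r, r ≤ p ∧ r ≤ q) → A.Countable) →
    ∀ D : Set (Set P), #D < 𝔠 → (∀ d ∈ D, ∀ p, ∃ q ∈ d, q ≤ p) →
      ∃ G : Set P, G.Nonempty ∧ (∀ p ∈ G, ∀ q, p ≤ q → q ∈ G) ∧
        (∀ p ∈ G, ∀ q ∈ G, ∃ r ∈ G, r ≤ p ∧ r ≤ q) ∧ ∀ d ∈ D, ∃ p ∈ G, p ∈ d

end Pool.Agent.Helper26.Gap
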