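import Pool.Agent.Helper26.Gap.Core

/-!
The P-ideal on the set of pairs and the dichotomy.
-/

set_option autoImplicit false

namespace Pool.Agent.Helper26.Gap

open Set Cardinal

variable {W : Type} [LinearOrder W] {L R : W → Set ℕ}

/-- the set of pairs `(α, β)` with `α < β` -/
abbrev SS (W : Type) [LinearOrder W] : Type := {p : W × W // p.1 < p.2}

/-- the ideal: countable sets `X` of pairs with finite columns such that for every `γ` there is
`γ' > γ` for which `(L β \ L α) ∩ (R γ' \ R γ)` tends to infinity along `(α, β) ∈ X` -/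
def II (L R : W → Set ℕ) : Set (Set (SS W)) :=
  {X | X.Countable ∧ (∀ a, {x ∈ X | x.1.1 = a}.Finite) ∧
    ∀ γ, ∃ γ', γ < γ' ∧ ∀ m, {x ∈ X | x.1 ∈ HH L R γ γ' m}.Finite}

lemma II_finite (h : Om1 W) {A : Set (SS W)} (hA : A.Finite) : A ∈ II L R := by
  refine ⟨hA.countable, fun a => hA.subset fun x hx => hx.1, fun γ => ?_⟩
  obtain ⟨b, hb⟩ := h.bdd (Set.countable_singleton γ)
  exact ⟨b, hb γ rfl, fun m => hA.subset fun x hx => hx.1⟩

lemma II_subset {A B : Set (SS W)} (hA : A ∈ II L R) (hB : B ⊆ A) : B ∈ II L R := by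
  refine ⟨hA.1.mono hB, fun a => (hA.2.1 a).subset fun x hx => ⟨hB hx.1, hx.2⟩, fun γ => ?_⟩
  obtain ⟨γ', h1, h2⟩ := hA.2.2 γ
  exact ⟨γ', h1, fun m => (h2 m).subset fun x hx => ⟨hB hx.1, hx.2⟩⟩

lemma II_union (g : WGap L R) {A B : Set (SS W)} (hA : A ∈ II L R) (hB : B ∈ II L R) :
    A ∪ B ∈ II L R := by
  refine ⟨hA.1.union hB.1, fun a => ?_, fun γ => ?_⟩
  · refine ((hA.2.1 a).union (hB.2.1 a)).subset ?_
    rintro x ⟨hx | hx, hxa⟩
    · exact Or.inl ⟨hx, hxa⟩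
    · exact Or.inr ⟨hx, hxa⟩
  · obtain ⟨γ1, h1, h2⟩ := hA.2.2 γ
    obtain ⟨γ2, h3, h4⟩ := hB.2.2 γ
    refine ⟨max γ1 γ2, lt_max_of_lt_left h1, fun m => ?_⟩
    have h5 := finite_step g γ (le_max_left γ1 γ2) (fun x : SS W => x.1) A h2 m
    have h6 := finite_step g γ (le_max_right γ1 γ2) (fun x : SS W => x.1) B h4 m
    refine (h5.union h6).subset ?_
    rintro x ⟨hx | hx, hxa⟩
    · exact Or.inl ⟨hx, hxa⟩
    · exact Or.inr ⟨hx, hxa⟩

lemma finite_bound {α : Type*} {A : Set α} (hA : A.Finite) (c : α → ℕ) :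
    ∃ B, ∀ x ∈ A, c x ≤ B := by
  obtain ⟨B, hB⟩ := (hA.image c).bddAbove
  exact ⟨B, fun x hx => hB ⟨x, hx, rfl⟩⟩

lemma II_P (hPP : PP) (h : Om1 W) (hW : #W ≤ ℵ₁) (g : WGap L R) (J : Set (Set (SS W)))
    (hJ : J ⊆ II L R) (hJc : J.Countable) : ∃ B ∈ II L R, ∀ A ∈ J, (A \ B).Finite := by
  classical
  rcases J.eq_empty_or_nonempty with rfl | hne
  · exact ⟨∅, II_finite h Set.finite_empty, by simp⟩
  obtain ⟨X, rfl⟩ := hJc.exists_eq_range hne
  have hX : ∀ n, X n ∈ II L R := fun n => hJ ⟨n, rfl⟩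
  let U : Set (SS W) := ⋃ n, X n
  have hU : U.Countable := Set.countable_iUnion fun n => (hX n).1
  obtain ⟨c, hc⟩ := Set.countable_iff_exists_injOn.1 hU
  obtain ⟨c', hc'⟩ := Set.countable_iff_exists_injOn.1 (hU.image fun x => x.1.1)
  have hXU : ∀ n, X n ⊆ U := fun n => Set.subset_iUnion X n
  -- fast function
  have hfast : ∀ γ, ∃ γ', γ < γ' ∧ ∀ n m, {x ∈ X n | x.1 ∈ HH L R γ γ' m}.Finite := by
    intro γ
    have h1 : ∀ n, ∃ γ', γ < γ' ∧ ∀ m, {x ∈ X n | x.1 ∈ HH L R γ γ' m}.Finite := fun n =>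
      (hX n).2.2 γ
    choose f hf1 hf2 using h1
    obtain ⟨b, hb⟩ := h.bdd (Set.countable_range f)
    refine ⟨b, (hf1 0).trans (hb _ ⟨_, rfl⟩), fun n m => ?_⟩
    exact finite_step g γ (hb _ ⟨n, rfl⟩).le (fun x : SS W => x.1) (X n) (hf2 n) m
  choose p hp1 hp2 using hfast
  have hf : ∀ γ n, ∃ B, ∀ x ∈ {x ∈ X n | x.1 ∈ HH L R γ (p γ) n}, c x ≤ B := fun γ n =>
    finite_bound (hp2 γ n n) c
  choose f hf using hf
  have hG : ∀ n, {x ∈ X n | c' x.1.1 ≤ n}.Finite := by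
    intro n
    have h1 : {a ∈ (fun x : SS W => x.1.1) '' U | c' a ≤ n}.Finite := by
      refine Set.Finite.of_finite_image (f := c') ?_ (hc'.mono fun a ha => ha.1)
      refine (Set.finite_Iic n).subset ?_
      rintro _ ⟨a, ha, rfl⟩
      exact ha.2
    refine (h1.biUnion fun a _ => (hX n).2.1 a).subset ?_
    intro x hx
    exact Set.mem_biUnion (x := x.1.1) ⟨⟨x, hXU n hx.1, rfl⟩, hx.2⟩ ⟨hx.1, rfl⟩
  have hg0 : ∀ n, ∃ B, ∀ x ∈ {x ∈ X n | c' x.1.1 ≤ n}, c x ≤ B := fun n => finite_bound (hG n) c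
  choose g0 hg0 using hg0
  obtain ⟨g1, hg1⟩ := dominate hPP hW f
  let G : ℕ → ℕ := fun n => max (g0 n) (g1 n)
  let B : Set (SS W) := {x | ∃ n, x ∈ X n ∧ G n < c x}
  have hBU : B ⊆ U := by
    rintro x ⟨n, hx, -⟩
    exact hXU n hx
  refine ⟨B, ⟨hU.mono hBU, ?_, ?_⟩, ?_⟩
  · intro a
    have h1 : (⋃ n ∈ Set.Iio (c' a), {x ∈ X n | x.1.1 = a}).Finite :=
      (Set.finite_Iio (c' a)).biUnion fun n _ => (hX n).2.1 a
    refine h1.subset ?_
    rintro x ⟨⟨n, hx, hcx⟩, rfl⟩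
    refine Set.mem_biUnion (x := n) ?_ ⟨hx, rfl⟩
    by_contra hcon
    have hle : c' x.1.1 ≤ n := not_lt.1 hcon
    have h2 := hg0 n x ⟨hx, hle⟩
    have h3 : g0 n ≤ G n := le_max_left _ _
    omega
  · intro γ
    refine ⟨p γ, hp1 γ, fun m => ?_⟩
    obtain ⟨N, hN⟩ := hg1 γ
    have h1 : (⋃ n ∈ Set.Iio (max N m), {x ∈ X n | x.1 ∈ HH L R γ (p γ) m}).Finite :=
      (Set.finite_Iio _).biUnion fun n _ => hp2 γ n m
    refine h1.subset ?_
    rintro x ⟨⟨n, hx, hcx⟩, hxH⟩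
    refine Set.mem_biUnion (x := n) ?_ ⟨hx, hxH⟩
    by_contra hcon
    have hle : max N m ≤ n := not_lt.1 hcon
    have h2 := hf γ n x ⟨hx, HH_mono ((le_max_right _ _).trans hle) hxH⟩
    have h3 := hN n ((le_max_left _ _).trans hle)
    have h4 : g1 n ≤ G n := le_max_right _ _
    omega
  · rintro _ ⟨n, rfl⟩
    refine Set.Finite.of_finite_image (f := c) ?_ (hc.mono fun x hx => hXU n hx.1)
    refine (Set.finite_Iic (G n)).subset ?_
    rintro _ ⟨x, ⟨hx1, hx2⟩, rfl⟩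
    by_contra hcon
    exact hx2 ⟨n, hx1, not_le.1 hcon⟩

/-- The second alternative of the dichotomy fails. -/
lemma II_alt2 (hPP : PP) (h : Om1 W) (hW : #W ≤ ℵ₁) (g : WGap L R) (T : ℕ → Set (SS W))
    (hT : (⋃ n, T n) = Set.univ) (hperp : ∀ n, ∀ A ∈ II L R, (T n ∩ A).Finite) : False := by
  classical
  -- an uncountable column
  have h1 : ∀ a : W, ∃ n, ¬ {b | ∃ hab : a < b, (⟨(a, b), hab⟩ : SS W) ∈ T n}.Countable := by
    intro a
    by_contra hcon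
    push Not at hcon
    have h2 : (Set.Ioi a) ⊆ ⋃ n, {b | ∃ hab : a < b, (⟨(a, b), hab⟩ : SS W) ∈ T n} := by
      intro b hb
      have h3 : (⟨(a, b), hb⟩ : SS W) ∈ ⋃ n, T n := by rw [hT]; trivial
      obtain ⟨n, hn⟩ := Set.mem_iUnion.1 h3
      exact Set.mem_iUnion.2 ⟨n, hb, hn⟩
    have h4 : (Set.Ioi a).Countable := (Set.countable_iUnion hcon).mono h2
    apply h.unc
    refine ((h.iic a).union h4).mono fun b _ => ?_
    rcases le_or_gt b a with hle | hlt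
    · exact Or.inl hle
    · exact Or.inr hlt
  choose ν hν using h1
  obtain ⟨n, hn⟩ := unc_fiber h.unc ν
  have hinf : {z ∈ (Set.univ : Set W) | ν z = n}.Infinite := fun hf => hn hf.countable
  let a : ℕ → W := fun i => (hinf.natEmbedding _ i : W)
  have ha_inj : Function.Injective a := fun i j hij =>
    (hinf.natEmbedding _).injective (Subtype.ext hij)
  have ha : ∀ i, ν (a i) = n := fun i => (hinf.natEmbedding _ i).2.2
  have hcol : ∀ i, ¬ {b | ∃ hab : a i < b, (⟨(a i, b), hab⟩ : SS W) ∈ T n}.Countable := by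
    intro i
    have := hν (a i)
    rwa [ha i] at this
  have hX := fun i => claimB hPP h hW g (hcol i)
  choose X hX1 hX2 hX3 hX4 using hX
  -- a common fast function, together with the base of the column
  have hfast : ∀ γ, ∃ γ', γ < γ' ∧ ∀ i m, {b ∈ X i | (a i, b) ∈ HH L R γ γ' m}.Finite := by
    intro γ
    choose f hf1 hf2 using fun i => hX4 i γ
    obtain ⟨b, hb⟩ := h.bdd (Set.countable_range f)
    refine ⟨b, (hf1 0).trans (hb _ ⟨_, rfl⟩), fun i m => ?_⟩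
    refine finite_step g γ (hb _ ⟨i, rfl⟩).le (fun b => (a i, b)) (X i) ?_ m
    intro m
    obtain ⟨M, hM⟩ := (g.disj (a i) (f i)).bddAbove
    refine (hf2 i (max m (M + 1))).subset ?_
    rintro b ⟨hb1, hb2⟩
    refine ⟨hb1, ?_⟩
    rintro ⟨k, hk1, hk2, hk3, hk4⟩
    by_cases hka : k ∈ L (a i)
    · have h5 := hM ⟨hka, hk3⟩
      have h6 : M + 1 ≤ k := (le_max_right _ _).trans hk1
      omega
    · have h5 := hb2 k hk2 hka hk3 hk4
      have h6 : m ≤ k := (le_max_left _ _).trans hk1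
      omega
  choose p hp1 hp2 using hfast
  -- the countable set of candidates
  let Y : Set (SS W) := {x | x ∈ T n ∧ ∃ i, x.1.1 = a i ∧ x.1.2 ∈ X i}
  have hYc : Y.Countable := by
    have h5 : (⋃ i, (fun b => (a i, b)) '' X i).Countable :=
      Set.countable_iUnion fun i => (hX2 i).image _
    refine Set.countable_of_injective_of_countable_image (f := fun x : SS W => x.1)
      Subtype.val_injective.injOn (h5.mono ?_)
    rintro _ ⟨x, ⟨-, i, hxi, hxb⟩, rfl⟩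
    exact Set.mem_iUnion.2 ⟨i, x.1.2, hxb, by rw [← hxi]⟩
  let A : (W × ℕ) ⊕ ℕ → Set Y := fun j => Sum.elim
    (fun q => {x : Y | (x : SS W).1 ∉ HH L R q.1 (p q.1) q.2})
    (fun i => {x : Y | (x : SS W).1.1 ≠ a i}) j
  have hcard : #((W × ℕ) ⊕ ℕ) ≤ ℵ₁ := by
    rw [Cardinal.mk_sum, Cardinal.mk_prod]
    simp only [Cardinal.lift_id, Cardinal.mk_nat]
    calc #W * ℵ₀ + ℵ₀ ≤ ℵ₁ * ℵ₁ + ℵ₁ :=
          add_le_add (mul_le_mul' hW (Cardinal.aleph0_le_aleph 1)) (Cardinal.aleph0_le_aleph 1)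
      _ = ℵ₁ := by
          rw [Cardinal.mul_eq_self (Cardinal.aleph0_le_aleph 1),
            Cardinal.add_eq_self (Cardinal.aleph0_le_aleph 1)]
  have hfip : ∀ F : Finset ((W × ℕ) ⊕ ℕ), (⋂ j ∈ F, A j).Infinite := by
    intro F
    -- a fresh column
    obtain ⟨i, hi⟩ : ∃ i : ℕ, ∀ j ∈ F, j ≠ Sum.inr i := by
      have h5 : (Set.range (Sum.inr : ℕ → (W × ℕ) ⊕ ℕ)).Infinite :=
        Set.infinite_range_of_injective Sum.inr_injective
      obtain ⟨_, ⟨i, rfl⟩, hi⟩ := h5.exists_notMem_finset F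
      exact ⟨i, fun j hj hji => hi (hji ▸ hj)⟩
    have hbad : (⋃ j ∈ F, Sum.elim (fun q : W × ℕ => {b ∈ X i | (a i, b) ∈ HH L R q.1 (p q.1) q.2})
        (fun _ => (∅ : Set W)) j).Finite := by
      refine Set.Finite.biUnion F.finite_toSet ?_
      rintro (q | l) -
      · exact hp2 q.1 i q.2
      · exact Set.finite_empty
    have hgood := (hX3 i).sdiff hbad
    intro hfin
    apply hgood
    refine (hfin.image fun x : Y => (x : SS W).1.2).subset ?_
    rintro b ⟨hb1, hb2⟩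
    obtain ⟨hab, hbT⟩ := hX1 i hb1
    refine ⟨⟨⟨(a i, b), hab⟩, hbT, i, rfl, hb1⟩, ?_, rfl⟩
    simp only [Set.mem_iInter]
    rintro (q | l) hj
    · intro hcon
      apply hb2
      exact Set.mem_biUnion (x := Sum.inl q) hj ⟨hb1, hcon⟩
    · show a i ≠ a l
      intro hcon
      exact hi _ hj (by rw [ha_inj hcon])
  have hYc' : Countable Y := hYc.to_subtype
  obtain ⟨V, hVinf, hV⟩ := hPP Y _ hYc' hcard A hfip
  have hVI : (Subtype.val '' V : Set (SS W)) ∈ II L R := by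
    refine ⟨(Set.to_countable V).image _, fun w => ?_, fun γ => ⟨p γ, hp1 γ, fun m => ?_⟩⟩
    · by_cases hw : ∃ i, w = a i
      · obtain ⟨i, rfl⟩ := hw
        refine ((hV (Sum.inr i)).image Subtype.val).subset ?_
        rintro _ ⟨⟨x, hx, rfl⟩, hxa⟩
        exact ⟨x, ⟨hx, fun hn => hn hxa⟩, rfl⟩
      · refine Set.finite_empty.subset ?_
        rintro _ ⟨⟨x, hx, rfl⟩, hxa⟩
        obtain ⟨i, hi, -⟩ := x.2.2
        exact hw ⟨i, by rw [← hxa, hi]⟩
    · refine ((hV (Sum.inl (γ, m))).image Subtype.val).subset ?_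
      rintro _ ⟨⟨x, hx, rfl⟩, hxa⟩
      exact ⟨x, ⟨hx, fun hn => hn hxa⟩, rfl⟩
  have hlast := hperp n _ hVI
  apply hVinf.image Subtype.val_injective.injOn
  refine hlast.subset ?_
  rintro _ ⟨x, hx, rfl⟩
  exact ⟨x.2.1, ⟨x, hx, rfl⟩⟩

end Pool.Agent.Helper26.Gap
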