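import Pool.Agent.Helper26.Gap.Abs

/-!
Every `(ω₁, ω₁)`-gap is weakly levelwise-inseparable under the P-ideal dichotomy and Martin's axiom.
-/

set_option autoImplicit false

namespace Pool.Agent.Helper26.Gap

open Set Cardinal Ordinal

/-- the well-order of type `ω₁` used as index set -/
abbrev W1 : Type := (ℵ₁ : Cardinal.{0}).ord.ToType

lemma om1_W1 : Om1 W1 where
  iio a := by
    rw [Cardinal.countable_iff_lt_aleph_one]
    exact Cardinal.mk_Iio_toType_ord_lt a
  unc hc := by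
    rw [Cardinal.countable_iff_lt_aleph_one, Cardinal.mk_univ, Cardinal.mk_ord_toType] at hc
    exact lt_irrefl _ hc

lemma mk_W1 : #W1 = ℵ₁ := Cardinal.mk_ord_toType _

/-- the ordinal of an index -/
noncomputable def oo (w : W1) : Ordinal.{0} := ((ToType.mk.symm w : Set.Iio _) : Ordinal.{0})

lemma oo_lt (w : W1) : oo w < ω₁ := by
  have h : oo w < (ℵ₁ : Cardinal.{0}).ord := (ToType.mk.symm w).2
  rwa [Cardinal.ord_aleph] at h

lemma lt_ord {α : Ordinal.{0}} (h : α < ω₁) : α < (ℵ₁ : Cardinal.{0}).ord := by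
  rwa [Cardinal.ord_aleph]

/-- the index of an ordinal -/
noncomputable def ww {α : Ordinal.{0}} (h : α < ω₁) : W1 := ToType.mk ⟨α, lt_ord h⟩

lemma oo_ww {α : Ordinal.{0}} (h : α < ω₁) : oo (ww h) = α := by
  simp [oo, ww]

lemma ww_oo (w : W1) : ww (oo_lt w) = w := by
  simp [oo, ww]

lemma oo_lt_iff {a b : W1} : oo a < oo b ↔ a < b := by
  simp [oo]

lemma oo_le_iff {a b : W1} : oo a ≤ oo b ↔ a ≤ b := by
  simp [oo]

lemma ww_lt {α β : Ordinal.{0}} (hα : α < ω₁) (hβ : β < ω₁) : ww hα < ww hβ ↔ α < β := by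
  rw [← oo_lt_iff, oo_ww, oo_ww]

lemma succ_lt {α : Ordinal.{0}} (h : α < ω₁) : α + 1 < ω₁ :=
  (isSuccLimit_omega 1).add_one_lt h

/-- the gap transferred to the index set `W1` -/
lemma transfer {L R : Ordinal.{0} → Set ℕ} (hL : AlmostIncreasing L) (hR : AlmostIncreasing R)
    (hg : IsGap L R) : WGap (fun w => L (oo w)) (fun w => R (oo w)) where
  monoL a b hab := by
    rcases hab.eq_or_lt with rfl | hlt
    · simp
    · exact hL _ _ (oo_lt_iff.2 hlt) (oo_lt b)
  monoR a b hab := by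
    rcases hab.eq_or_lt with rfl | hlt
    · simp
    · exact hR _ _ (oo_lt_iff.2 hlt) (oo_lt b)
  disj a b := hg.1 _ (oo_lt a) _ (oo_lt b)
  insep C hC := by
    apply hg.2
    refine ⟨C, fun α hα => ?_⟩
    have h := hC (ww hα)
    simpa only [oo_ww] using h

open Classical in
/-- the subgap -/
noncomputable def sub (T : Ordinal.{0} → Set ℕ) (φ : W1 → W1) (α : Ordinal.{0}) : Set ℕ :=
  if h : α < ω₁ then T (oo (φ (ww h))) else ∅

lemma sub_eq (T : Ordinal.{0} → Set ℕ) (φ : W1 → W1) {α : Ordinal.{0}} (h : α < ω₁) :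
    sub T φ α = T (oo (φ (ww h))) := by
  simp [sub, h]

theorem wli_of_fine {L R : Ordinal.{0} → Set ℕ} (hL : AlmostIncreasing L)
    (hR : AlmostIncreasing R) (hg : IsGap L R) {φ : W1 → W1}
    (hφ : Fine (fun w => L (oo w)) (fun w => R (oo w)) φ) : WLI L R := by
  have hstrict := hφ.1
  have hmono : ∀ η ξ, η ≤ ξ → φ η ≤ φ ξ := by
    intro η ξ h
    rcases h.eq_or_lt with rfl | hlt
    · exact le_rfl
    · exact (hstrict η ξ hlt).1.le
  have hge : ∀ w, w ≤ φ w := by
    have hsm : StrictMono φ := fun a b hab => (hstrict a b hab).1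
    exact fun w => hsm.le_apply
  refine ⟨sub L φ, sub R φ, ?_, ?_, ?_, ?_, ?_, ?_⟩
  · intro α hα
    exact ⟨_, oo_lt _, sub_eq L φ hα⟩
  · intro α hα
    exact ⟨_, oo_lt _, sub_eq R φ hα⟩
  · intro α β hαβ hβ
    have hα := hαβ.trans hβ
    rw [sub_eq L φ hα, sub_eq L φ hβ]
    have h1 := hstrict _ _ ((ww_lt hα hβ).2 hαβ)
    exact ⟨hL _ _ (oo_lt_iff.2 h1.1) (oo_lt _), h1.2.1⟩
  · intro α β hαβ hβ
    have hα := hαβ.trans hβ
    rw [sub_eq R φ hα, sub_eq R φ hβ]
    have h1 := hstrict _ _ ((ww_lt hα hβ).2 hαβ)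
    exact ⟨hR _ _ (oo_lt_iff.2 h1.1) (oo_lt _), h1.2.2⟩
  · refine ⟨?_, ?_⟩
    · intro α hα β hβ
      rw [sub_eq L φ hα, sub_eq R φ hβ]
      exact hg.1 _ (oo_lt _) _ (oo_lt _)
    · rintro ⟨C, hC⟩
      have tg := transfer hL hR hg
      apply tg.insep C
      intro w
      have h1 := hC (oo w) (oo_lt w)
      rw [sub_eq L φ (oo_lt w), sub_eq R φ (oo_lt w), ww_oo] at h1
      constructor
      · refine ((tg.monoL w (φ w) (hge w)).union h1.1).subset ?_
        rintro k ⟨hk1, hk2⟩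
        by_cases hk : k ∈ L (oo (φ w))
        · exact Or.inr ⟨hk, hk2⟩
        · exact Or.inl ⟨hk1, hk⟩
      · refine ((tg.monoR w (φ w) (hge w)).union h1.2).subset ?_
        rintro k ⟨hk1, hk2⟩
        by_cases hk : k ∈ R (oo (φ w))
        · exact Or.inr ⟨hk1, hk⟩
        · exact Or.inl ⟨hk2, hk⟩
  · refine ⟨?_, ?_⟩
    · intro α hα β hβ
      simp only [sub_eq L φ hα, sub_eq L φ (succ_lt hα), sub_eq R φ hβ, sub_eq R φ (succ_lt hβ)]
      refine (hg.1 _ (oo_lt (φ (ww (succ_lt hα)))) _ (oo_lt (φ (ww (succ_lt hβ))))).subset ?_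
      rintro k ⟨hk1, hk2⟩
      exact ⟨hk1.1, hk2.1⟩
    · rintro ⟨C, hC⟩
      refine hφ.2 (fun w => ww (succ_lt (oo_lt w))) ?_ C ?_
      · intro w
        rw [← oo_lt_iff, oo_ww]
        exact Order.lt_add_one_iff.2 le_rfl
      · intro w
        have h1 := hC (oo w) (oo_lt w)
        beta_reduce at h1
        rw [sub_eq L φ (oo_lt w), sub_eq R φ (oo_lt w), sub_eq L φ (succ_lt (oo_lt w)),
          sub_eq R φ (succ_lt (oo_lt w)), ww_oo] at h1
        exact h1

/-- Under the P-ideal dichotomy and `𝔭 > ω₁` every gap is WLI. -/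
theorem wli_of_pp (hPID : PID) (hPP : PP) {L R : Ordinal.{0} → Set ℕ} (hL : AlmostIncreasing L)
    (hR : AlmostIncreasing R) (hg : IsGap L R) : WLI L R := by
  have tg := transfer hL hR hg
  have h := om1_W1
  have hunc : ¬ (Set.univ : Set (SS W1)).Countable := by
    intro hc
    obtain ⟨γ⟩ : Nonempty W1 := by
      by_contra hne
      rw [not_nonempty_iff] at hne
      exact h.unc (Set.to_countable _)
    apply h.unc
    have h1 : (Set.Ioi γ).Countable := by
      refine (hc.image fun x : SS W1 => x.1.2).mono ?_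
      intro b hb
      exact ⟨⟨(γ, b), hb⟩, trivial, rfl⟩
    refine ((h.iic γ).union h1).mono fun b _ => ?_
    rcases le_or_gt b γ with hle | hlt
    · exact Or.inl hle
    · exact Or.inr hlt
  rcases hPID (SS W1) (II (fun w => L (oo w)) (fun w => R (oo w))) hunc (fun A hA => hA.1)
    (fun A hA => II_finite h hA) (fun A hA B hB => II_subset hA hB)
    (fun A hA B hB => II_union tg hA hB)
    (fun J hJ hJc => II_P hPP h mk_W1.le tg J hJ hJc) with ⟨Z, hZ, hZI⟩ | ⟨T, hT, hperp⟩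
  · obtain ⟨φ, hφ⟩ := alt1 h tg Z hZ hZI
    exact wli_of_fine hL hR hg hφ
  · exact (II_alt2 hPP h mk_W1.le tg T hT hperp).elim

/-- Under the continuum hypothesis every gap is WLI. -/
theorem wli_of_ch (hCH : (𝔠 : Cardinal.{0}) ≤ ℵ₁) {L R : Ordinal.{0} → Set ℕ}
    (hL : AlmostIncreasing L) (hR : AlmostIncreasing R) (hg : IsGap L R) : WLI L R := by
  have tg := transfer hL hR hg
  have h := om1_W1
  have h1 : #(Set ℕ) ≤ #W1 := by
    rw [mk_W1]
    simpa using hCH
  obtain ⟨f⟩ : Nonempty (Set ℕ ↪ W1) := Cardinal.le_def _ _ |>.1 h1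
  obtain ⟨e, he⟩ := f.injective.hasLeftInverse
  obtain ⟨φ, hφ⟩ := caseCH h tg e he.surjective
  exact wli_of_fine hL hR hg hφ

/-- Under the P-ideal dichotomy and Martin's axiom every gap is WLI. -/
theorem wli_of_ma (hPID : PID) (hMA : MA) {L R : Ordinal.{0} → Set ℕ} (hL : AlmostIncreasing L)
    (hR : AlmostIncreasing R) (hg : IsGap L R) : WLI L R := by
  rcases le_or_gt (𝔠 : Cardinal.{0}) ℵ₁ with hle | hlt
  · exact wli_of_ch hle hL hR hg
  · exact wli_of_pp hPID (pseudo hMA hlt) hL hR hg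

end Pool.Agent.Helper26.Gap
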